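import Pool.Agent.Lib.HQE.Desc

/-!
# Hofstadter's recursion with any initial values

Constraints on the solutions of `f n = f (n - f (n - 1)) + f (n - f (n - 2))`, for as long as the
recursion is defined.
-/

set_option autoImplicit false

namespace Pool.Agent.Lib.HQE

/-- `f` follows Hofstadter's recursion from the positive initial values `f 1, ..., f s` (`s ≥ 2`)
up to `N`: for `s < n ≤ N` the value `f n` is defined by the recursion. -/
def Follows (s N : ℕ) (f : ℕ → ℕ) : Prop :=
  2 ≤ s ∧ (∀ k, 1 ≤ k → k ≤ s → 1 ≤ f k) ∧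
    ∀ n, s < n → n ≤ N → f (n - 1) < n ∧ f (n - 2) < n ∧
      f n = f (n - f (n - 1)) + f (n - f (n - 2))

theorem Follows.pos {s N : ℕ} {f : ℕ → ℕ} (h : Follows s N f) :
    ∀ n, 1 ≤ n → n ≤ N → 1 ≤ f n := by
  intro n
  induction n using Nat.strong_induction_on with
  | _ n ih =>
    intro h1 hN
    by_cases hs : n ≤ s
    · exact h.2.1 n h1 hs
    · have h2 := h.1
      obtain ⟨a, b, c⟩ := h.2.2 n (by omega) hN
      have p1 := ih (n - 1) (by omega) (by omega) (by omega)
      have q1 := ih (n - f (n - 1)) (by omega) (by omega) (by omega)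
      omega

theorem Follows.two {s N : ℕ} {f : ℕ → ℕ} (h : Follows s N f) :
    ∀ n, s < n → n ≤ N → 2 ≤ f n := by
  intro n hs hN
  have h2 := h.1
  obtain ⟨a, b, c⟩ := h.2.2 n hs hN
  have p1 := h.pos (n - 1) (by omega) (by omega)
  have p2 := h.pos (n - 2) (by omega) (by omega)
  have q1 := h.pos (n - f (n - 1)) (by omega) (by omega)
  have q2 := h.pos (n - f (n - 2)) (by omega) (by omega)
  omega

/-- in a window of length `M log₂ M + 3` some value exceeds `M` -/
theorem Follows.large {s N : ℕ} {f : ℕ → ℕ} (h : Follows s N f) (x M : ℕ) (hx : s ≤ x)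
    (hM : 1 ≤ M) (hN : x + M * Nat.log 2 M + 3 ≤ N) :
    ∃ n, x < n ∧ n ≤ x + M * Nat.log 2 M + 3 ∧ M < f n := by
  by_contra hcon
  have hb : ∀ n, x < n → n ≤ x + M * Nat.log 2 M + 3 → f n ≤ M := by
    intro n h1 h2
    by_contra h3
    exact hcon ⟨n, h1, h2, by omega⟩
  have h2 := h.1
  have key : ∀ k n, x + M * k + 3 ≤ n → n ≤ x + M * Nat.log 2 M + 3 → 2 ^ (k + 1) ≤ f n := by
    intro k
    induction k with
    | zero => intro n h1 h2; exact h.two n (by omega) (by omega)
    | succ k ih =>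
      intro n h1 h3
      rw [Nat.mul_add, Nat.mul_one] at h1
      obtain ⟨a, b, c⟩ := h.2.2 n (by omega) (by omega)
      have u1 := hb (n - 1) (by omega) (by omega)
      have u2 := hb (n - 2) (by omega) (by omega)
      have v1 := ih (n - f (n - 1)) (by omega) (by omega)
      have v2 := ih (n - f (n - 2)) (by omega) (by omega)
      rw [pow_succ, c]
      omega
  have t := key (Nat.log 2 M) (x + M * Nat.log 2 M + 3) le_rfl le_rfl
  have u := hb (x + M * Nat.log 2 M + 3) (by omega) le_rfl
  have w : M < 2 ^ (Nat.log 2 M + 1) := Nat.lt_pow_succ_log_self (by norm_num) M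
  omega

theorem Follows.le {s N : ℕ} {f : ℕ → ℕ} (h : Follows s N f) (c : ℕ)
    (hc : ∀ k, 1 ≤ k → k ≤ s → f k ≤ k + c) : ∀ k, 1 ≤ k → k < N → f k ≤ k + c := by
  intro k h1 h2
  by_cases hs : k ≤ s
  · exact hc k h1 hs
  · by_cases hk : s < k + 1
    · obtain ⟨a, -, -⟩ := h.2.2 (k + 1) hk h2
      rw [Nat.add_sub_cancel] at a
      omega
    · omega

/-- three consecutive values -/
theorem Follows.triple {s N : ℕ} {f : ℕ → ℕ} (h : Follows s N f) (c : ℕ)
    (hc : ∀ k, 1 ≤ k → k ≤ s → f k ≤ k + c) (n : ℕ) (hs : s < n) (hN : n ≤ N) :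
    f n + f (n - 1) + f (n - 2) ≤ 2 * n + 2 * c := by
  have h2 := h.1
  obtain ⟨a, b, e⟩ := h.2.2 n hs hN
  have p1 := h.pos (n - 1) (by omega) (by omega)
  have p2 := h.pos (n - 2) (by omega) (by omega)
  have q1 := h.le c hc (n - f (n - 1)) (by omega) (by omega)
  have q2 := h.le c hc (n - f (n - 2)) (by omega) (by omega)
  omega

/-- a descent at every scale -/
theorem Follows.descent {s N : ℕ} {f : ℕ → ℕ} (h : Follows s N f) (c : ℕ)
    (hc : ∀ k, 1 ≤ k → k ≤ s → f k ≤ k + c) (x : ℕ) (hx : s ≤ x) (hcx : c ≤ x)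
    (hN : 120 * x + 2000 ≤ N) : ∃ n, x ≤ n ∧ n < 120 * x + 2000 ∧ f (n + 1) < f n := by
  by_contra hcon
  have hmono : ∀ n, x ≤ n → n < 120 * x + 2000 → f n ≤ f (n + 1) := by
    intro n h1 h2
    by_contra h3
    exact hcon ⟨n, h1, h2, by omega⟩
  have h2 := h.1
  have hM : Mon f x (120 * x + 2000) :=
    { hx := by omega
      recu := by
        intro i h1 h3
        have := h.2.2 (i + 2) (by omega) (by omega)
        rw [show i + 2 - 1 = i + 1 by omega, Nat.add_sub_cancel] at this
        exact this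
      mono := hmono
      pos := fun n h1 h3 => h.pos n h1 (by omega)
      small := by
        intro k h1 h3
        have t := h.triple c hc (k + 2) (by omega) (by omega)
        rw [show k + 2 - 1 = k + 1 by omega, Nat.add_sub_cancel] at t
        have m1 := hmono k h1 (by omega)
        have m2 := hmono (k + 1) (by omega) (by omega)
        rw [show k + 1 + 1 = k + 2 by omega] at m2
        omega }
  exact absurd hM.bound (lt_irrefl _)

end Pool.Agent.Lib.HQE
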