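import Mathlib

/-!
# A solution of Hofstadter's recursion has no long nondecreasing stretch
-/

set_option autoImplicit false

namespace Pool.Agent.Lib.HQE

/-- the recursion holds on a window on which `f` is nondecreasing -/
structure Mon (f : ℕ → ℕ) (x y : ℕ) : Prop where
  hx : 1 ≤ x
  recu : ∀ i, x ≤ i → i + 2 ≤ y → f (i + 1) < i + 2 ∧ f i < i + 2 ∧
    f (i + 2) = f (i + 2 - f (i + 1)) + f (i + 2 - f i)
  mono : ∀ n, x ≤ n → n < y → f n ≤ f (n + 1)
  pos : ∀ n, 1 ≤ n → n ≤ y → 1 ≤ f n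
  small : ∀ k, x ≤ k → k + 2 ≤ y → 3 * f k ≤ 2 * k + 2 * x + 4

namespace Mon

variable {f : ℕ → ℕ} {x y : ℕ}

theorem le (h : Mon f x y) {a b : ℕ} (ha : x ≤ a) (hab : a ≤ b) (hb : b ≤ y) : f a ≤ f b := by
  induction b, hab using Nat.le_induction with
  | base => exact le_rfl
  | succ n hn ih => exact (ih (by omega)).trans (h.mono n (by omega) (by omega))

/-- two rises in a row are followed by a flat step -/
theorem A (h : Mon f x y) {i : ℕ} (hi : 5 * x + 40 ≤ i) (hy : i + 5 ≤ y)
    (h1 : f i < f (i + 1)) (h2 : f (i + 1) < f (i + 2)) :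
    f (i + 3) = f (i + 2) ∧ f (i + 3 - f (i + 2)) = f (i + 2 - f (i + 1)) ∧
      f (i + 3 - f (i + 1)) = f (i + 2 - f i) := by
  have r0 := h.recu i (by omega) (by omega)
  have r1 := h.recu (i + 1) (by omega) (by omega)
  have s2 := h.small (i + 2) (by omega) (by omega)
  have s1 := h.small (i + 1) (by omega) (by omega)
  have p0 := h.pos i (by omega) (by omega)
  have m0 := h.mono (i + 2) (by omega) (by omega)
  have e1 : f (i + 3 - f (i + 2)) ≤ f (i + 2 - f (i + 1)) := h.le (by omega) (by omega) (by omega)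
  have e2 : f (i + 3 - f (i + 1)) ≤ f (i + 2 - f i) := h.le (by omega) (by omega) (by omega)
  have r1' : f (i + 3) = f (i + 3 - f (i + 2)) + f (i + 3 - f (i + 1)) := r1.2.2
  have m0' : f (i + 2) ≤ f (i + 3) := m0
  have r0' := r0.2.2
  omega

/-- a pair of rises after a flat step -/
theorem B (h : Mon f x y) {i : ℕ} (hi : 5 * x + 40 ≤ i) (hy : i + 6 ≤ y)
    (h0 : f i = f (i + 1)) (h1 : f (i + 1) < f (i + 2)) (h2 : f (i + 2) < f (i + 3)) :
    f (i + 2) = f (i + 1) + 1 ∧
      f (i + 3) + f (i + 2 - f (i + 1)) = f (i + 2) + f (i + 2 - f (i + 1) + 1) ∧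
      f (i + 4 - f (i + 3)) = f (i + 2 - f (i + 1)) ∧ f (i + 4) = f (i + 3) := by
  have a := h.A (i := i + 1) (by omega) (by omega) h1 h2
  have a1 : f (i + 4) = f (i + 3) := a.1
  have a2 : f (i + 4 - f (i + 3)) = f (i + 3 - f (i + 2)) := a.2.1
  have a3 : f (i + 4 - f (i + 2)) = f (i + 3 - f (i + 1)) := a.2.2
  have r0 := h.recu i (by omega) (by omega)
  have r1 := h.recu (i + 1) (by omega) (by omega)
  have s2 := h.small (i + 2) (by omega) (by omega)
  have s1 := h.small (i + 1) (by omega) (by omega)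
  have s3 := h.small (i + 3) (by omega) (by omega)
  have p0 := h.pos i (by omega) (by omega)
  have r1' : f (i + 3) = f (i + 3 - f (i + 2)) + f (i + 3 - f (i + 1)) := r1.2.2
  have r0' := r0.2.2
  rw [h0] at r0'
  by_cases ha : f (i + 2) = f (i + 1) + 1
  · have e : i + 3 - f (i + 2) = i + 2 - f (i + 1) := by omega
    have e' : i + 3 - f (i + 1) = i + 2 - f (i + 1) + 1 := by omega
    rw [e] at a2 r1'
    rw [e'] at r1'
    refine ⟨ha, ?_, a2, a1⟩
    omega
  · exfalso
    have l1 : f (i + 4 - f (i + 2)) ≤ f (i + 2 - f (i + 1)) := h.le (by omega) (by omega) (by omega)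
    have l2 : f (i + 3 - f (i + 2)) ≤ f (i + 2 - f (i + 1)) := h.le (by omega) (by omega) (by omega)
    omega

/-- a rise after two flat steps: the position read is a flat step followed by rises `1, 1` -/
theorem C1 (h : Mon f x y) {i : ℕ} (hi : 17 * x + 130 ≤ i) (hy : i + 10 ≤ y)
    (h0 : f i = f (i + 1)) (h1 : f (i + 1) = f (i + 2)) (h2 : f (i + 2) < f (i + 3)) :
    ∃ m, m = i + 3 - f (i + 2) ∧ f (m - 2) = f (m - 1) ∧ f m = f (m - 1) + 1 ∧
      f (m + 1) = f m + 1 ∧ f (i + 3) = f (i + 2) + 2 ∧ f (i + 4) = f (i + 3) ∧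
      f (i + 5) = f (i + 4) ∧ f (i + 6) = f (i + 5) + 2 := by
  have r0 := h.recu i (by omega) (by omega)
  have r1 := h.recu (i + 1) (by omega) (by omega)
  have r2 := h.recu (i + 2) (by omega) (by omega)
  have r3 := h.recu (i + 3) (by omega) (by omega)
  have r4 := h.recu (i + 4) (by omega) (by omega)
  have s1 := h.small (i + 1) (by omega) (by omega)
  have s2 := h.small (i + 2) (by omega) (by omega)
  have s3 := h.small (i + 3) (by omega) (by omega)
  have p0 := h.pos i (by omega) (by omega)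
  have r0' : f (i + 2) = f (i + 2 - f (i + 1)) + f (i + 2 - f i) := r0.2.2
  have r1' : f (i + 3) = f (i + 3 - f (i + 2)) + f (i + 3 - f (i + 1)) := r1.2.2
  have r2' : f (i + 4) = f (i + 4 - f (i + 3)) + f (i + 4 - f (i + 2)) := r2.2.2
  have r3' : f (i + 5) = f (i + 5 - f (i + 4)) + f (i + 5 - f (i + 3)) := r3.2.2
  have r4' : f (i + 6) = f (i + 6 - f (i + 5)) + f (i + 6 - f (i + 4)) := r4.2.2
  obtain ⟨m, hm⟩ : ∃ m, m = i + 3 - f (i + 2) := ⟨_, rfl⟩
  have hmlow : 5 * x + 40 + 2 ≤ m := by omega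
  have hmup : m + f (i + 2) = i + 3 := by omega
  have e1 : i + 2 - f (i + 1) = m - 1 := by omega
  have e2 : i + 2 - f i = m - 1 := by omega
  rw [e1, e2] at r0'
  have e3 : i + 3 - f (i + 1) = m := by omega
  rw [e3, ← hm] at r1'
  have e4 : i + 4 - f (i + 2) = m + 1 := by omega
  rw [e4] at r2'
  have m3 : f (i + 3) ≤ f (i + 4) := h.mono (i + 3) (by omega) (by omega)
  have l1 : f (i + 4 - f (i + 3)) ≤ f (m - 1) := h.le (by omega) (by omega) (by omega)
  -- rises at m and m+1
  have q1 : f (m - 1) < f m := by omega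
  have q2 : f m < f (m + 1) := by omega
  have q0 : f (m - 2) = f (m - 1) := by
    have l := h.mono (m - 2) (by omega) (by omega)
    rw [show m - 2 + 1 = m - 1 by omega] at l
    by_contra hne
    have := h.A (i := m - 2) (by omega) (by omega)
      (by rw [show m - 2 + 1 = m - 1 by omega]; omega)
      (by rw [show m - 2 + 1 = m - 1 by omega, show m - 2 + 2 = m by omega]; omega)
    have t := this.1
    rw [show m - 2 + 3 = m + 1 by omega, show m - 2 + 2 = m by omega] at t
    omega
  have b := h.B (i := m - 2) (by omega) (by omega)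
      (by rw [show m - 2 + 1 = m - 1 by omega]; exact q0)
      (by rw [show m - 2 + 1 = m - 1 by omega, show m - 2 + 2 = m by omega]; exact q1)
      (by rw [show m - 2 + 3 = m + 1 by omega, show m - 2 + 2 = m by omega]; exact q2)
  have b1 := b.1
  rw [show m - 2 + 2 = m by omega, show m - 2 + 1 = m - 1 by omega] at b1
  have e5 : i + 4 - f (i + 3) = m - 1 := by omega
  rw [e5] at r2'
  -- the second rise is 1
  have c1 : f (m + 1) = f m + 1 := by
    by_contra hne
    have := h.B (i := i + 1) (by omega) (by omega) h1 h2 (by show f (i + 3) < f (i + 4); omega)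
    have t : f (i + 3) = f (i + 2) + 1 := this.1
    omega
  have d1 : f (i + 4) = f (i + 3) := by omega
  have e6 : i + 5 - f (i + 4) = m := by omega
  have e7 : i + 5 - f (i + 3) = m := by omega
  rw [e6, e7] at r3'
  have d2 : f (i + 5) = f (i + 4) := by omega
  have e8 : i + 6 - f (i + 5) = m + 1 := by omega
  have e9 : i + 6 - f (i + 4) = m + 1 := by omega
  rw [e8, e9] at r4'
  exact ⟨m, hm, q0, b1, c1, by omega, d1, d2, by omega⟩

/-- no rise after two flat steps -/
theorem C (h : Mon f x y) {i : ℕ} (hi : 17 * x + 130 ≤ i) (hy : i + 13 ≤ y)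
    (h0 : f i = f (i + 1)) (h1 : f (i + 1) = f (i + 2)) : f (i + 3) = f (i + 2) := by
  by_contra hne
  have m2 : f (i + 2) ≤ f (i + 3) := h.mono (i + 2) (by omega) (by omega)
  obtain ⟨m, hm, q0, q1, q2, q3, q4, q5, q6⟩ := h.C1 hi (by omega) h0 h1 (by omega)
  obtain ⟨m', hm', w0, w1, w2, -⟩ := h.C1 (i := i + 3) (by omega) (by omega)
    (by show f (i + 3) = f (i + 4); exact q4.symm) (by show f (i + 4) = f (i + 5); exact q5.symm)
    (by show f (i + 5) < f (i + 6); omega)
  have s2 := h.small (i + 2) (by omega) (by omega)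
  have : m' = m + 1 := by
    rw [hm', hm]
    show i + 6 - f (i + 5) = _
    omega
  rw [this, show m + 1 - 2 = m - 1 by omega, show m + 1 - 1 = m by omega] at w0
  omega

/-- two flat steps in a row are impossible -/
theorem D (h : Mon f x y) {i : ℕ} (hi : 17 * x + 130 ≤ i) (hy : 2 * i + 40 ≤ y)
    (h0 : f i = f (i + 1)) (h1 : f (i + 1) = f (i + 2)) : False := by
  have key : ∀ j, i + j + 13 ≤ y → f (i + j) = f i ∧ f (i + j + 1) = f i ∧ f (i + j + 2) = f i := by
    intro j
    induction j with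
    | zero => intro _; exact ⟨rfl, h0.symm, (h0.trans h1).symm⟩
    | succ j ih =>
      intro hj
      obtain ⟨a, b, c⟩ := ih (by omega)
      have t := h.C (i := i + j) (by omega) (by omega) (by omega) (by omega)
      refine ⟨by rw [← b]; congr 1, by rw [← c]; congr 1, ?_⟩
      rw [show i + (j + 1) + 2 = i + j + 3 by omega, t, c]
  have s := h.small i (by omega) (by omega)
  have p := h.pos i (by omega) (by omega)
  have k1 := key (f i) (by omega)
  have r := h.recu (i + f i) (by omega) (by omega)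
  have r' := r.2.2
  rw [k1.1, k1.2.1, k1.2.2, show i + f i + 2 - f i = i + 2 by omega, ← h1, ← h0] at r'
  omega

/-- a rise between two flat steps is impossible -/
theorem E (h : Mon f x y) {i : ℕ} (hi : 17 * x + 130 ≤ i) (hy : 2 * i + 50 ≤ y)
    (h0 : f i = f (i + 1)) (h1 : f (i + 1) < f (i + 2)) (h2 : f (i + 2) = f (i + 3)) : False := by
  have r0 := h.recu i (by omega) (by omega)
  have r1 := h.recu (i + 1) (by omega) (by omega)
  have r2 := h.recu (i + 2) (by omega) (by omega)
  have s1 := h.small (i + 1) (by omega) (by omega)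
  have s2 := h.small (i + 2) (by omega) (by omega)
  have r0' : f (i + 2) = f (i + 2 - f (i + 1)) + f (i + 2 - f i) := r0.2.2
  have r1' : f (i + 3) = f (i + 3 - f (i + 2)) + f (i + 3 - f (i + 1)) := r1.2.2
  have r2' : f (i + 4) = f (i + 4 - f (i + 3)) + f (i + 4 - f (i + 2)) := r2.2.2
  rw [h0] at r0'
  rw [← h2] at r2'
  have m3 : f (i + 3) ≤ f (i + 4) := h.mono (i + 3) (by omega) (by omega)
  have hle : f (i + 4 - f (i + 2)) ≤ f (i + 2 - f (i + 1)) := by
    by_cases ha : f (i + 2) = f (i + 1) + 1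
    · have e : i + 3 - f (i + 2) = i + 2 - f (i + 1) := by omega
      have e' : i + 4 - f (i + 2) = i + 3 - f (i + 1) := by omega
      rw [e] at r1'
      rw [e']
      omega
    · exact h.le (by omega) (by omega) (by omega)
  exact h.D (i := i + 2) (by omega) (by omega) h2 (by show f (i + 3) = f (i + 4); omega)

/-- after a flat step: rises `1, b`, then a flat step -/
theorem F0 (h : Mon f x y) {i : ℕ} (hi : 17 * x + 130 ≤ i) (hy : 2 * i + 60 ≤ y)
    (h0 : f i = f (i + 1)) :
    f (i + 2) = f (i + 1) + 1 ∧ f (i + 2) < f (i + 3) ∧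
      f (i + 3) + f (i + 2 - f (i + 1)) = f (i + 2) + f (i + 2 - f (i + 1) + 1) ∧
      f (i + 4 - f (i + 3)) = f (i + 2 - f (i + 1)) ∧ f (i + 4) = f (i + 3) := by
  have m1 : f (i + 1) ≤ f (i + 2) := h.mono (i + 1) (by omega) (by omega)
  have m2 : f (i + 2) ≤ f (i + 3) := h.mono (i + 2) (by omega) (by omega)
  have h1 : f (i + 1) < f (i + 2) := by
    rcases Nat.lt_or_ge (f (i + 1)) (f (i + 2)) with t | t
    · exact t
    · exact (h.D hi (by omega) h0 (by omega)).elim
  have h2 : f (i + 2) < f (i + 3) := by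
    rcases Nat.lt_or_ge (f (i + 2)) (f (i + 3)) with t | t
    · exact t
    · exact (h.E hi (by omega) h0 h1 (by omega)).elim
  obtain ⟨b1, b2, b3, b4⟩ := h.B (by omega) (by omega) h0 h1 h2
  exact ⟨b1, h2, b2, b3, b4⟩

/-- after a flat step the rises are `1, 1`, and the position read rises by `1` -/
theorem F1 (h : Mon f x y) {i : ℕ} (hi : 53 * x + 500 ≤ i) (hy : 2 * i + 60 ≤ y)
    (h0 : f i = f (i + 1)) :
    f (i + 2) = f (i + 1) + 1 ∧ f (i + 3) = f (i + 2) + 1 ∧ f (i + 4) = f (i + 3) ∧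
      f (i + 2 - f (i + 1) + 1) = f (i + 2 - f (i + 1)) + 1 := by
  obtain ⟨b1, b2, b3, b4, b5⟩ := h.F0 (by omega) hy h0
  have s1 := h.small (i + 1) (by omega) (by omega)
  have s2 := h.small (i + 2) (by omega) (by omega)
  have s3 := h.small (i + 3) (by omega) (by omega)
  have p1 := h.pos (i + 1) (by omega) (by omega)
  obtain ⟨m, hm⟩ : ∃ m, m = i + 2 - f (i + 1) := ⟨_, rfl⟩
  rw [← hm] at b3 b4 ⊢
  have one : f (i + 3) = f (i + 2) + 1 := by
    by_contra hne
    have l1 : f (i + 4 - f (i + 3)) ≤ f (m - 1) := h.le (by omega) (by omega) (by omega)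
    have l2 : f (m - 1) ≤ f m := h.le (by omega) (by omega) (by omega)
    have q := h.F0 (i := m - 1) (by omega) (by omega)
      (by rw [show m - 1 + 1 = m by omega]; omega)
    have q1 := q.1
    rw [show m - 1 + 1 = m by omega, show m - 1 + 2 = m + 1 by omega] at q1
    omega
  exact ⟨b1, one, b5, by omega⟩

/-- no long nondecreasing stretch -/
theorem bound (h : Mon f x y) : y < 120 * x + 2000 := by
  by_contra hy
  obtain ⟨i, hi, hi', h0⟩ : ∃ i, 53 * x + 500 ≤ i ∧ i ≤ 53 * x + 502 ∧ f i = f (i + 1) := by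
    have m0 : f (53 * x + 500) ≤ f (53 * x + 501) := h.mono _ (by omega) (by omega)
    have m1 : f (53 * x + 501) ≤ f (53 * x + 502) := h.mono _ (by omega) (by omega)
    by_cases c0 : f (53 * x + 500) = f (53 * x + 501)
    · exact ⟨53 * x + 500, le_rfl, by omega, c0⟩
    by_cases c1 : f (53 * x + 501) = f (53 * x + 502)
    · exact ⟨53 * x + 501, by omega, by omega, c1⟩
    have := h.A (i := 53 * x + 500) (by omega) (by omega) (by show _ < f (53 * x + 501); omega)
      (by show f (53 * x + 501) < f (53 * x + 502); omega)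
    exact ⟨53 * x + 502, by omega, by omega, this.1.symm⟩
  obtain ⟨a1, a2, a3, a4⟩ := h.F1 hi (by omega) h0
  obtain ⟨b1, b2, b3, b4⟩ := h.F1 (i := i + 3) (by omega) (by omega) a3.symm
  obtain ⟨c1, c2, c3, c4⟩ := h.F1 (i := i + 6) (by omega) (by omega)
    (by show f (i + 6) = f (i + 7); exact b3.symm)
  have s1 := h.small (i + 1) (by omega) (by omega)
  have b1' : f (i + 5) = f (i + 4) + 1 := b1
  have b2' : f (i + 6) = f (i + 5) + 1 := b2
  have b3' : f (i + 7) = f (i + 6) := b3
  obtain ⟨m, hm⟩ : ∃ m, m = i + 2 - f (i + 1) := ⟨_, rfl⟩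
  rw [← hm] at a4
  have e1 : i + 3 + 2 - f (i + 3 + 1) = m + 1 := by
    show i + 5 - f (i + 4) = m + 1
    omega
  have e2 : i + 6 + 2 - f (i + 6 + 1) = m + 2 := by
    show i + 8 - f (i + 7) = m + 2
    omega
  rw [e1] at b4
  rw [e2] at c4
  have b4' : f (m + 2) = f (m + 1) + 1 := b4
  have := h.A (i := m) (by omega) (by omega) (by omega) (by omega)
  have t : f (m + 3) = f (m + 2) := this.1
  have c4' : f (m + 3) = f (m + 2) + 1 := c4
  omega

end Mon

end Pool.Agent.Lib.HQE
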